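import Pool.Agent.N922.PQ.Lat
import Pool.Agent.N862.PP.Ns

/-!
# Primes over `Q` and norms in a cubic number field (project PQ of helper922)

By helper667; adapted from the files of helper862 (project PP).
-/

set_option autoImplicit false
set_option linter.all false

open Polynomial IsDedekindDomain WithZero UniqueFactorizationMonoid
open scoped Classical

namespace Pool.Agent.N667.PQ

open Pool.Agent.N922.PQ
open Pool.Agent.N874.PP (Ev Sq1 U0)
open Pool.Agent.N862.PP (not_ev_of_exp val_eq ev_iff_count ev_mul_sq cn cn_prod cn_sum cn_zero cn_pow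
  cn_one exists_unif exists_two sq1_mul_sq)

theorem crd_iff {L : Type} [Field L] [CharZero L] {θ : L} {v : Fin 3 → ℤ} {x : L} :
    Crd θ v x ↔ x = algebraMap ℤ L (v 0) + algebraMap ℤ L (v 1) * θ +
      algebraMap ℤ L (v 2) * θ ^ 2 := Iff.rfl

theorem root' {L : Type} [Field L] [CharZero L] {a b : ℤ} {θ : L} (h : IsCub a b θ) :
    θ ^ 3 + algebraMap ℤ L a * θ + algebraMap ℤ L b = 0 := h.root

section basic

variable {L O : Type} [Field L] [NumberField L] [CommRing O] [IsDedekindDomain O] [Algebra O L]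
  [IsFractionRing O L] [IsIntegralClosure O ℤ L] {a b : ℤ} {θ : L}

theorem algL_inj : Function.Injective (algebraMap ℤ L) := by
  rw [IsScalarTower.algebraMap_eq ℤ ℚ L]
  exact (algebraMap ℚ L).injective.comp (IsFractionRing.injective ℤ ℚ)

theorem algOL_inj : Function.Injective (algebraMap O L) := IsFractionRing.injective O L

/-- Uniqueness of coordinates. -/
theorem crd_uniq (h : IsCub a b θ) {v w : Fin 3 → ℤ} {x : L} (hv : Crd θ v x)
    (hw : Crd θ w x) : v = w := by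
  have hli := h.basis.linearIndependent
  have h0 : ∑ i, (algebraMap ℤ ℚ (v i) - algebraMap ℤ ℚ (w i)) • h.basis i = 0 := by
    have e : ∀ u : Fin 3 → ℤ, ∑ i, algebraMap ℤ ℚ (u i) • h.basis i =
        algebraMap ℤ L (u 0) + algebraMap ℤ L (u 1) * θ + algebraMap ℤ L (u 2) * θ ^ 2 := by
      intro u
      simp only [Fin.sum_univ_three, h.basis_apply, vec, Matrix.cons_val_zero, Matrix.cons_val_one,
        Matrix.cons_val, Algebra.smul_def, ← IsScalarTower.algebraMap_apply ℤ ℚ L, mul_one]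
    simp only [sub_smul, Finset.sum_sub_distrib, e]
    rw [← crd_iff.mp hv, ← crd_iff.mp hw, sub_self]
  rw [Fintype.linearIndependent_iff] at hli
  funext i
  exact IsFractionRing.injective ℤ ℚ (sub_eq_zero.mp (hli _ h0 i))

theorem crd_mul_theta (h : IsCub a b θ) {v : Fin 3 → ℤ} {x : L} (hv : Crd θ v x) :
    Crd θ ![-b * v 2, v 0 - a * v 2, v 1] (θ * x) := by
  have hr := root' h
  simp only [crd_iff] at *
  simp only [Matrix.cons_val_zero, Matrix.cons_val_one, Matrix.cons_val, map_mul, map_neg, map_sub]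
  rw [hv]
  linear_combination (algebraMap ℤ L (v 2)) * hr

theorem crd_mul_sq (h : IsCub a b θ) {v : Fin 3 → ℤ} {x : L} (hv : Crd θ v x) :
    Crd θ ![a * v 0 - b * v 1, - b * v 2, v 0] ((θ ^ 2 + algebraMap ℤ L a) * x) := by
  have hr := root' h
  simp only [crd_iff] at *
  simp only [Matrix.cons_val_zero, Matrix.cons_val_one, Matrix.cons_val, map_mul, map_neg, map_sub]
  rw [hv]
  linear_combination (algebraMap ℤ L (v 1) + algebraMap ℤ L (v 2) * θ) * hr

theorem crd_smul {v : Fin 3 → ℤ} {x : L} (c : ℤ) (hv : Crd θ v x) :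
    Crd θ (fun i => c * v i) (algebraMap ℤ L c * x) := by
  simp only [crd_iff] at *
  rw [hv]
  simp only [map_mul]
  ring

theorem crd_add {v w : Fin 3 → ℤ} {x y : L} (hv : Crd θ v x) (hw : Crd θ w y) :
    Crd θ (fun i => v i + w i) (x + y) := by
  simp only [crd_iff] at *
  rw [hv, hw]
  simp only [map_add]
  ring

theorem crd_one : Crd θ ![1, 0, 0] (1 : L) := by
  simp only [crd_iff]
  simp

/-- `θ` as an element of `O`. -/
theorem exists_theta (h : IsCub a b θ) : ∃ t : O, algebraMap O L t = θ ∧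
    t ^ 3 + algebraMap ℤ O a * t + algebraMap ℤ O b = 0 := by
  have hint : IsIntegral ℤ θ := by
    refine ⟨X ^ 3 + C a * X + C b, ?_, ?_⟩
    · monicity!
    · simp only [eval₂_add, eval₂_mul, eval₂_pow, eval₂_X, eval₂_C]
      exact root' h
  obtain ⟨t, ht⟩ := IsIntegralClosure.isIntegral_iff (A := O).mp hint
  refine ⟨t, ht, ?_⟩
  apply IsFractionRing.injective O L
  simp only [map_add, map_mul, map_pow, ht, map_zero, ← IsScalarTower.algebraMap_apply ℤ O L]
  exact root' h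

theorem isInt (x : O) : IsIntegral ℤ (algebraMap O L x) :=
  (IsIntegralClosure.isIntegral_iff (R := ℤ) (A := O)).mpr ⟨x, rfl⟩

include L in
theorem algO_inj : Function.Injective (algebraMap ℤ O) := by
  have h : Function.Injective (algebraMap ℤ L) := algL_inj
  rw [IsScalarTower.algebraMap_eq ℤ O L] at h
  exact Function.Injective.of_comp h

/-- a prime over `Q` meets `ℤ` in `(Q)` -/
theorem ov_iff {Q : ℤ} (hQ : Prime Q) {𝔓 : HeightOneSpectrum O} (hov : Ov Q 𝔓)
    (c : ℤ) : algebraMap ℤ O c ∈ 𝔓.asIdeal ↔ Q ∣ c := by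
  constructor
  · intro hc
    by_contra hn
    have hcop : IsCoprime Q c := (hQ.irreducible.coprime_iff_not_dvd).mpr hn
    obtain ⟨u, v, huv⟩ := hcop
    have : algebraMap ℤ O (u * Q + v * c) ∈ 𝔓.asIdeal := by
      rw [map_add, map_mul, map_mul]
      exact Ideal.add_mem _ (Ideal.mul_mem_left _ _ hov) (Ideal.mul_mem_left _ _ hc)
    rw [huv, map_one] at this
    exact 𝔓.isPrime.ne_top ((Ideal.eq_top_iff_one _).mpr this)
  · rintro ⟨d, rfl⟩
    rw [map_mul]
    exact Ideal.mul_mem_right _ _ hov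

end basic

section ideals

variable {L O : Type} [Field L] [NumberField L] [CommRing O] [IsDedekindDomain O] [Algebra O L]
  [IsFractionRing O L] [IsIntegralClosure O ℤ L] {a b : ℤ} {θ : L}

/-- `(Q, θ)` -/
def J1 (Q : ℤ) (t : O) : Ideal O := Ideal.span {algebraMap ℤ O Q, t}

/-- `(Q, θ ^ 2 + a)` -/
def J2 (Q a : ℤ) (t : O) : Ideal O :=
  Ideal.span {algebraMap ℤ O Q, t ^ 2 + algebraMap ℤ O a}

theorem Q_mem_J1 (Q : ℤ) (t : O) : algebraMap ℤ O Q ∈ J1 Q t :=
  Ideal.subset_span (by simp)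

theorem t_mem_J1 (Q : ℤ) (t : O) : t ∈ J1 Q t := Ideal.subset_span (by simp)

theorem Q_mem_J2 (Q a : ℤ) (t : O) : algebraMap ℤ O Q ∈ J2 Q a t :=
  Ideal.subset_span (by simp)

theorem t_mem_J2 (Q a : ℤ) (t : O) : t ^ 2 + algebraMap ℤ O a ∈ J2 Q a t :=
  Ideal.subset_span (by simp)

theorem J1_ne (hI : S_INT) (h : IsCub a b θ) (hsq : Squarefree (dsc a b))
    {Q : ℤ} (hQ : Prime Q) (hQb : Q ∣ b) {t : O} (ht : algebraMap O L t = θ) :
    (1 : O) ∉ J1 Q t := by
  intro hm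
  obtain ⟨x, y, hxy⟩ := Ideal.mem_span_pair.mp hm
  obtain ⟨u, hu⟩ := (hI L a b θ h hsq _).mp (isInt (L := L) x)
  obtain ⟨v, hv⟩ := (hI L a b θ h hsq _).mp (isInt (L := L) y)
  have h1 := crd_add (crd_smul Q hu) (crd_mul_theta h hv)
  have h2 : algebraMap ℤ L Q * algebraMap O L x + θ * algebraMap O L y = 1 := by
    rw [← ht, IsScalarTower.algebraMap_apply ℤ O L, ← map_mul, ← map_mul, ← map_add,
      ← map_one (algebraMap O L), ← hxy]
    congr 1
    ring
  rw [h2] at h1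
  have h3 := congrFun (crd_uniq h h1 crd_one) 0
  simp only [Matrix.cons_val_zero] at h3
  obtain ⟨c, rfl⟩ := hQb
  exact hQ.not_unit (isUnit_of_dvd_one ⟨u 0 - c * v 2, by rw [← h3]; ring⟩)

theorem J2_ne (hI : S_INT) (h : IsCub a b θ) (hsq : Squarefree (dsc a b))
    {Q : ℤ} (hQ : Prime Q) (hQb : Q ∣ b) {t : O} (ht : algebraMap O L t = θ) :
    (1 : O) ∉ J2 Q a t := by
  intro hm
  obtain ⟨x, y, hxy⟩ := Ideal.mem_span_pair.mp hm
  obtain ⟨u, hu⟩ := (hI L a b θ h hsq _).mp (isInt (L := L) x)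
  obtain ⟨v, hv⟩ := (hI L a b θ h hsq _).mp (isInt (L := L) y)
  have h1 := crd_add (crd_smul Q hu) (crd_mul_sq h hv)
  have h2 : algebraMap ℤ L Q * algebraMap O L x +
      (θ ^ 2 + algebraMap ℤ L a) * algebraMap O L y = 1 := by
    rw [← ht, IsScalarTower.algebraMap_apply ℤ O L, IsScalarTower.algebraMap_apply ℤ O L,
      ← map_pow, ← map_add, ← map_mul, ← map_mul, ← map_add,
      ← map_one (algebraMap O L), ← hxy]
    congr 1
    ring
  rw [h2] at h1
  have h3 := congrFun (crd_uniq h h1 crd_one) 0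
  have h4 := congrFun (crd_uniq h h1 crd_one) 2
  simp only [Matrix.cons_val_zero, Matrix.cons_val] at h3 h4
  obtain ⟨c, rfl⟩ := hQb
  have h5 : v 0 = - (Q * u 2) := by linear_combination h4
  rw [h5] at h3
  exact hQ.not_unit (isUnit_of_dvd_one ⟨u 0 - a * u 2 - c * v 1, by rw [← h3]; ring⟩)

theorem J1_rep (hI : S_INT) (h : IsCub a b θ) (hsq : Squarefree (dsc a b))
    {Q : ℤ} {t : O} (ht : algebraMap O L t = θ) (x : O) :
    ∃ c : ℤ, x - algebraMap ℤ O c ∈ J1 Q t := by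
  obtain ⟨u, hu⟩ := (hI L a b θ h hsq _).mp (isInt (L := L) x)
  refine ⟨u 0, ?_⟩
  have : x - algebraMap ℤ O (u 0) =
      (algebraMap ℤ O (u 1) + algebraMap ℤ O (u 2) * t) * t := by
    apply IsFractionRing.injective O L
    simp only [crd_iff] at hu
    simp only [map_sub, map_mul, map_add, hu, ← IsScalarTower.algebraMap_apply ℤ O L, ht]
    ring
  rw [this]
  exact Ideal.mul_mem_left _ _ (t_mem_J1 Q t)

theorem J2_rep (hI : S_INT) (h : IsCub a b θ) (hsq : Squarefree (dsc a b))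
    {Q : ℤ} {t : O} (ht : algebraMap O L t = θ) (x : O) :
    ∃ c d : ℤ, x - (algebraMap ℤ O c + algebraMap ℤ O d * t) ∈ J2 Q a t := by
  obtain ⟨u, hu⟩ := (hI L a b θ h hsq _).mp (isInt (L := L) x)
  refine ⟨u 0 - a * u 2, u 1, ?_⟩
  have : x - (algebraMap ℤ O (u 0 - a * u 2) + algebraMap ℤ O (u 1) * t) =
      algebraMap ℤ O (u 2) * (t ^ 2 + algebraMap ℤ O a) := by
    apply IsFractionRing.injective O L
    simp only [crd_iff] at hu
    simp only [map_sub, map_mul, map_add, map_pow, hu, ← IsScalarTower.algebraMap_apply ℤ O L,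
      ht]
    ring
  rw [this]
  exact Ideal.mul_mem_left _ _ (t_mem_J2 Q a t)

theorem cop_mem {Q c : ℤ} (hQ : Prime Q) (hc : ¬ Q ∣ c) {J : Ideal O}
    (h1 : algebraMap ℤ O Q ∈ J) (h2 : algebraMap ℤ O c ∈ J) : (1 : O) ∈ J := by
  obtain ⟨u, v, huv⟩ := (hQ.irreducible.coprime_iff_not_dvd).mpr hc
  have : algebraMap ℤ O (u * Q + v * c) ∈ J := by
    rw [map_add, map_mul, map_mul]
    exact Ideal.add_mem _ (Ideal.mul_mem_left _ _ h1) (Ideal.mul_mem_left _ _ h2)
  rwa [huv, map_one] at this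

theorem J1_max (hI : S_INT) (h : IsCub a b θ) (hsq : Squarefree (dsc a b))
    {Q : ℤ} (hQ : Prime Q) (hQb : Q ∣ b) {t : O} (ht : algebraMap O L t = θ) :
    (J1 Q t).IsMaximal := by
  rw [Ideal.isMaximal_iff]
  refine ⟨J1_ne hI h hsq hQ hQb ht, fun J x hJ hx hxJ => ?_⟩
  obtain ⟨c, hc⟩ := J1_rep hI h hsq (Q := Q) ht x
  have hcJ : algebraMap ℤ O c ∈ J := by
    have := J.sub_mem hxJ (hJ hc)
    rwa [sub_sub_cancel] at this
  have hnc : ¬ Q ∣ c := by
    rintro ⟨d, rfl⟩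
    apply hx
    have := (J1 Q t).add_mem hc (Ideal.mul_mem_right (algebraMap ℤ O d) _ (Q_mem_J1 Q t))
    rwa [← map_mul, sub_add_cancel] at this
  exact cop_mem hQ hnc (hJ (Q_mem_J1 Q t)) hcJ

theorem nonres {Q c d : ℤ} (hQ : Prime Q) (hns : ∀ z : ℤ, ¬ Q ∣ z ^ 2 + a)
    (h : Q ∣ c ^ 2 + a * d ^ 2) : Q ∣ c ∧ Q ∣ d := by
  have hd : Q ∣ d := by
    by_contra hd
    obtain ⟨u, v, huv⟩ := (hQ.irreducible.coprime_iff_not_dvd).mpr hd
    obtain ⟨e, he⟩ := h
    apply hns (v * c)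
    refine ⟨v ^ 2 * e + a * u * (2 - u * Q), ?_⟩
    linear_combination v ^ 2 * he + (-(a * (v * d + 1 - u * Q))) * huv
  refine ⟨?_, hd⟩
  obtain ⟨e, rfl⟩ := hd
  have : Q ∣ c ^ 2 := by
    have := dvd_sub h (Dvd.intro (a * Q * e ^ 2) rfl : Q ∣ Q * (a * Q * e ^ 2))
    have e1 : c ^ 2 = c ^ 2 + a * (Q * e) ^ 2 - Q * (a * Q * e ^ 2) := by ring
    rwa [e1]
  exact hQ.dvd_of_dvd_pow this

theorem J2_max (hI : S_INT) (h : IsCub a b θ) (hsq : Squarefree (dsc a b))
    {Q : ℤ} (hQ : Prime Q) (hQb : Q ∣ b) (hns : ∀ z : ℤ, ¬ Q ∣ z ^ 2 + a)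
    {t : O} (ht : algebraMap O L t = θ) :
    (J2 Q a t).IsMaximal := by
  rw [Ideal.isMaximal_iff]
  refine ⟨J2_ne hI h hsq hQ hQb ht, fun J x hJ hx hxJ => ?_⟩
  obtain ⟨c, d, hc⟩ := J2_rep hI h hsq (Q := Q) ht x
  have hcJ : algebraMap ℤ O c + algebraMap ℤ O d * t ∈ J := by
    have := J.sub_mem hxJ (hJ hc)
    rwa [sub_sub_cancel] at this
  have hcd : algebraMap ℤ O (c ^ 2 + a * d ^ 2) ∈ J := by
    have e : algebraMap ℤ O (c ^ 2 + a * d ^ 2) =
        (algebraMap ℤ O c - algebraMap ℤ O d * t) *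
          (algebraMap ℤ O c + algebraMap ℤ O d * t) +
        algebraMap ℤ O d ^ 2 * (t ^ 2 + algebraMap ℤ O a) := by
      simp only [map_add, map_mul, map_pow]
      ring
    rw [e]
    exact J.add_mem (J.mul_mem_left _ hcJ) (J.mul_mem_left _ (hJ (t_mem_J2 Q a t)))
  by_cases hdv : Q ∣ c ^ 2 + a * d ^ 2
  · exfalso
    obtain ⟨⟨c', rfl⟩, d', rfl⟩ := nonres hQ hns hdv
    apply hx
    have := (J2 Q a t).add_mem hc (Ideal.mul_mem_right (algebraMap ℤ O c' +
      algebraMap ℤ O d' * t) _ (Q_mem_J2 Q a t))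
    convert this using 1
    simp only [map_mul]
    ring
  · exact cop_mem hQ hdv (hJ (Q_mem_J2 Q a t)) hcd

theorem J1_mul_J2 {Q : ℤ} (hQb : Q ∣ b) {t : O}
    (htr : t ^ 3 + algebraMap ℤ O a * t + algebraMap ℤ O b = 0) :
    J1 Q t * J2 Q a t ≤ Ideal.span {algebraMap ℤ O Q} := by
  rw [J1, J2, Ideal.span_mul_span', Ideal.span_le]
  rintro x ⟨y, hy, z, hz, rfl⟩
  rw [SetLike.mem_coe, Ideal.mem_span_singleton]
  simp only [Set.mem_insert_iff, Set.mem_singleton_iff] at hy hz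
  rcases hy with rfl | rfl
  · exact Dvd.intro _ rfl
  · rcases hz with rfl | rfl
    · exact Dvd.intro_left _ rfl
    · have : y * (y ^ 2 + algebraMap ℤ O a) = - algebraMap ℤ O b := by
        linear_combination htr
      simp only []
      rw [this]
      obtain ⟨c, rfl⟩ := hQb
      exact ⟨- algebraMap ℤ O c, by rw [map_mul]; ring⟩

theorem J1_mul_J2_eq (hI : S_INT) (h : IsCub a b θ)
    (hsq : Squarefree (dsc a b))
    {Q : ℤ} (hQ : Prime Q) (hQb : Q ∣ b) (hns : ∀ z : ℤ, ¬ Q ∣ z ^ 2 + a)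
    {t : O} (ht : algebraMap O L t = θ)
    (htr : t ^ 3 + algebraMap ℤ O a * t + algebraMap ℤ O b = 0) :
    J1 Q t * J2 Q a t = Ideal.span {algebraMap ℤ O Q} := by
  apply le_antisymm (J1_mul_J2 hQb htr)
  rw [Ideal.span_le, Set.singleton_subset_iff, SetLike.mem_coe]
  have hsup : (1 : O) ∈ J1 Q t ⊔ J2 Q a t := by
    have ha : ¬ Q ∣ a := fun hd => hns 0 (by simpa using hd)
    apply cop_mem (O := O) hQ ha
    · exact (le_sup_left : J1 Q t ≤ _) (Q_mem_J1 Q t)
    · have h1 := (J1 Q t ⊔ J2 Q a t).sub_mem ((le_sup_right : J2 Q a t ≤ _) (t_mem_J2 Q a t))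
        ((J1 Q t ⊔ J2 Q a t).mul_mem_left t ((le_sup_left : J1 Q t ≤ _) (t_mem_J1 Q t)))
      convert h1 using 1
      ring
  have hcop : IsCoprime (J1 Q t) (J2 Q a t) := by
    rw [Ideal.isCoprime_iff_sup_eq, Ideal.eq_top_iff_one]
    exact hsup
  rw [← Ideal.inf_eq_mul_of_isCoprime hcop]
  exact ⟨Q_mem_J1 Q t, Q_mem_J2 Q a t⟩

end ideals

/-- The norm of `v 0 + v 1 θ + v 2 θ ^ 2`. -/
noncomputable def dn (a b : ℤ) (v : Fin 3 → ℤ) : ℤ :=
  v 0 * ((v 0 - a * v 2) * (v 0 - a * v 2) - (-b * v 2 - a * v 1) * v 1)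
    - (-b * v 2) * (v 1 * (v 0 - a * v 2) - (-b * v 2 - a * v 1) * v 2)
    + (-b * v 1) * (v 1 * v 1 - (v 0 - a * v 2) * v 2)

section nrm

variable {L O : Type} [Field L] [NumberField L] [CommRing O] [IsDedekindDomain O] [Algebra O L]
  [IsFractionRing O L] [IsIntegralClosure O ℤ L] {a b : ℤ} {θ : L}

theorem repr_crd (h : IsCub a b θ) {v : Fin 3 → ℤ} {x : L} (hv : Crd θ v x) (i : Fin 3) :
    h.basis.repr x i = algebraMap ℤ ℚ (v i) := by
  have e : x = ∑ i, algebraMap ℤ ℚ (v i) • h.basis i := by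
    simp only [Fin.sum_univ_three, h.basis_apply, vec, Matrix.cons_val_zero, Matrix.cons_val_one,
      Matrix.cons_val, Algebra.smul_def, ← IsScalarTower.algebraMap_apply ℤ ℚ L, mul_one]
    exact hv
  rw [e, Module.Basis.repr_sum_self]

/-- The norm in coordinates. -/
theorem norm_crd (h : IsCub a b θ) {v : Fin 3 → ℤ} {x : L} (hv : Crd θ v x) :
    Algebra.norm ℚ x = algebraMap ℤ ℚ (dn a b v) := by
  have h1 := crd_mul_theta h hv
  have h2 := crd_mul_theta h h1
  rw [Algebra.norm_eq_matrix_det h.basis, Matrix.det_fin_three]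
  simp only [Algebra.leftMulMatrix_eq_repr_mul, h.basis_apply, vec, Matrix.cons_val_zero,
    Matrix.cons_val_one, Matrix.cons_val, mul_one]
  have e2 : x * θ ^ 2 = θ * (θ * x) := by ring
  rw [e2, mul_comm x θ]
  simp only [repr_crd h hv, repr_crd h h1, repr_crd h h2, Matrix.cons_val_zero,
    Matrix.cons_val_one, Matrix.cons_val]
  simp only [dn, map_sub, map_mul, map_add, map_neg]
  ring

theorem fin_O (hI : S_INT) (h : IsCub a b θ) (hsq : Squarefree (dsc a b)) :
    Module.Finite ℤ O := by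
  obtain ⟨t, ht, htr⟩ := exists_theta (O := O) h
  have : ⊤ ≤ Submodule.span ℤ ({1, t, t ^ 2} : Set O) := by
    intro x _
    obtain ⟨v, hv⟩ := (hI L a b θ h hsq _).mp (isInt (L := L) x)
    have : x = v 0 • (1 : O) + v 1 • t + v 2 • t ^ 2 := by
      apply IsFractionRing.injective O L
      simp only [crd_iff] at hv
      simp only [Algebra.smul_def, map_add, map_mul, map_pow, map_one, mul_one, ht, hv,
        ← IsScalarTower.algebraMap_apply ℤ O L]
    rw [this]
    exact Submodule.add_mem _ (Submodule.add_mem _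
      (Submodule.smul_mem _ _ (Submodule.subset_span (by simp)))
      (Submodule.smul_mem _ _ (Submodule.subset_span (by simp))))
      (Submodule.smul_mem _ _ (Submodule.subset_span (by simp)))
  exact ⟨⟨{1, t, t ^ 2}, by simpa using top_le_iff.mp this⟩⟩

include L in
theorem tf_O : Module.IsTorsionFree ℤ O := by
  have : FaithfulSMul ℤ O := (faithfulSMul_iff_algebraMap_injective ℤ O).mpr
    (algO_inj (L := L))
  infer_instance

end nrm

section par

variable {L O : Type} [Field L] [NumberField L] [CommRing O] [IsDedekindDomain O] [Algebra O L]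
  [IsFractionRing O L] [IsIntegralClosure O ℤ L] {a b : ℤ} {θ : L}

/-- the integral norm in coordinates -/
theorem intNorm_crd [Module.Finite ℤ O] [Module.IsTorsionFree ℤ O]
    (h : IsCub a b θ) {v : Fin 3 → ℤ} {x : O}
    (hv : Crd θ v (algebraMap O L x)) : Algebra.intNorm ℤ O x = dn a b v := by
  have hfd : FiniteDimensional ℚ L := Module.finite_of_finrank_pos (by rw [h.rank]; norm_num)
  apply IsFractionRing.injective ℤ ℚ
  rw [Algebra.algebraMap_intNorm (L := L), norm_crd h hv]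

/-- Parity. -/
theorem parity [Module.Finite ℤ O] [Module.IsTorsionFree ℤ O] (h : IsCub a b θ)
    {P : ℤ} (hP : Prime P) (𝔓₀ : HeightOneSpectrum O) (hov : Ov P 𝔓₀)
    (hodd : Odd (cn ℤ (Ideal.span {P}) 𝔓₀.asIdeal)) {x : L} (hx : x ≠ 0)
    (hsq : IsSquare (Algebra.norm ℚ x))
    (hoth : ∀ 𝔓 : HeightOneSpectrum O, Ov P 𝔓 → 𝔓 ≠ 𝔓₀ → Ev 𝔓 x ∨
      Even (cn ℤ (Ideal.span {P}) 𝔓.asIdeal)) : Ev 𝔓₀ x := by
  have hfd : FiniteDimensional ℚ L := Module.finite_of_finrank_pos (by rw [h.rank]; norm_num)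
  obtain ⟨z₁, w, hw, rfl⟩ := IsFractionRing.div_surjective (A := O) x
  have hw0 : w ≠ 0 := nonZeroDivisors.ne_zero hw
  have hwL : algebraMap O L w ≠ 0 := by
    simpa using hw0
  -- `z = z₁ w`
  have hz0 : z₁ * w ≠ 0 := by
    rintro h0
    rcases mul_eq_zero.mp h0 with rfl | h0
    · simp at hx
    · exact hw0 h0
  have hxz : algebraMap O L z₁ / algebraMap O L w * algebraMap O L w ^ 2 =
      algebraMap O L (z₁ * w) := by
    rw [map_mul]
    field_simp
  have hev : ∀ 𝔓 : HeightOneSpectrum O, Ev 𝔓 (algebraMap O L z₁ / algebraMap O L w) ↔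
      Even ((normalizedFactors (Ideal.span {z₁ * w})).count 𝔓.asIdeal) := by
    intro 𝔓
    rw [← ev_mul_sq 𝔓 hwL, hxz, ev_iff_count 𝔓 hz0]
  have hpp : (Ideal.span {P} : Ideal ℤ).IsPrime :=
    (Ideal.span_singleton_prime hP.ne_zero).mpr hP
  have hpb : (Ideal.span {P} : Ideal ℤ) ≠ ⊥ := by
    rw [Ne, Ideal.span_singleton_eq_bot]
    exact hP.ne_zero
  -- the norm is a square
  have hnsq : ∃ m : ℤ, Algebra.intNorm ℤ O (z₁ * w) = m * m := by
    have h1 : IsSquare (algebraMap ℤ ℚ (Algebra.intNorm ℤ O (z₁ * w))) := by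
      rw [Algebra.algebraMap_intNorm (L := L), ← hxz, map_mul, map_pow]
      exact hsq.mul (IsSquare.sq _)
    obtain ⟨r, hr⟩ := h1
    have hint : IsIntegral ℤ r := by
      refine IsIntegral.of_pow (n := 2) (by norm_num) ?_
      rw [sq, ← hr]
      exact isIntegral_algebraMap
    obtain ⟨m, rfl⟩ := IsIntegrallyClosed.isIntegral_iff.mp hint
    exact ⟨m, IsFractionRing.injective ℤ ℚ (by rw [hr, map_mul])⟩
  obtain ⟨m, hm⟩ := hnsq
  have hzI : (Ideal.span {z₁ * w} : Ideal O) ≠ ⊥ := by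
    rw [Ne, Ideal.span_singleton_eq_bot]
    exact hz0
  have hm0 : m ≠ 0 := by
    rintro rfl
    have := (Algebra.intNorm_eq_zero (A := ℤ) (B := O)).mp (hm.trans (mul_zero _))
    exact hz0 this
  have heven : Even (cn ℤ (Ideal.span {P}) (Ideal.span {z₁ * w} : Ideal O)) := by
    unfold cn
    rw [Ideal.relNorm_singleton, hm, ← Ideal.span_singleton_mul_span_singleton,
      normalizedFactors_mul, Multiset.count_add]
    · exact ⟨_, rfl⟩
    · simpa using hm0
    · simpa using hm0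
  rw [cn_sum _ hzI] at heven
  rw [hev]
  by_cases hmem : 𝔓₀.asIdeal ∈ (normalizedFactors (Ideal.span {z₁ * w} : Ideal O)).toFinset
  · rw [← Finset.add_sum_erase _ _ hmem] at heven
    have hrest : Even (∑ J ∈ (normalizedFactors (Ideal.span {z₁ * w} : Ideal O)).toFinset.erase
        𝔓₀.asIdeal, (normalizedFactors (Ideal.span {z₁ * w} : Ideal O)).count J *
          cn ℤ (Ideal.span {P}) J) := by
      apply Finset.even_sum
      intro J hJ
      rw [Finset.mem_erase, Multiset.mem_toFinset] at hJ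
      obtain ⟨hJ1, hJ2⟩ := hJ
      have hJp := prime_of_normalized_factor J hJ2
      have hJ3 : J.IsPrime := Ideal.isPrime_of_prime hJp
      by_cases hJP : (Ideal.span {P} : Ideal ℤ) ≤ J.comap (algebraMap ℤ O)
      · let 𝔓 : HeightOneSpectrum O := ⟨J, hJ3, hJp.ne_zero⟩
        have hov' : Ov P 𝔓 := hJP (Ideal.mem_span_singleton_self P)
        have hne : 𝔓 ≠ 𝔓₀ := fun h0 => hJ1 (by rw [← h0])
        rcases hoth 𝔓 hov' hne with h1 | h1
        · exact ((hev 𝔓).mp h1).mul_right _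
        · exact h1.mul_left _
      · rw [cn_zero hpp hpb hJ3 hJp.ne_zero hJP, mul_zero]
        exact ⟨0, rfl⟩
    have h1 := (Nat.even_add.mp heven).mpr hrest
    rcases Nat.even_mul.mp h1 with h2 | h2
    · exact h2
    · exact absurd h2 (Nat.not_even_iff_odd.mpr hodd)
  · rw [Multiset.mem_toFinset] at hmem
    rw [Multiset.count_eq_zero_of_notMem hmem]
    exact ⟨0, rfl⟩

end par

section par

variable {L O : Type} [Field L] [NumberField L] [CommRing O] [IsDedekindDomain O] [Algebra O L]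
  [IsFractionRing O L] [IsIntegralClosure O ℤ L] {a b : ℤ} {θ : L}

theorem sqf_root {a b : ℤ} (hsq : Squarefree (dsc a b)) {P : ℤ}
    (hP : Prime P) (c : ℤ) :
    ∃ c', P ∣ c' - c ∧ ¬ P ^ 2 ∣ c' ^ 3 + a * c' + b := by
  by_contra hno
  push Not at hno
  obtain ⟨e, he⟩ := hno c (by simp)
  obtain ⟨e', he'⟩ := hno (c + P) (by simp)
  have h1 : P * (3 * c ^ 2 + a) = P * (P * (e' - e - 3 * c - P)) := by
    linear_combination he' - he
  have h2 := mul_left_cancel₀ hP.ne_zero h1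
  have h3 : P * P ∣ dsc a b := by
    refine ⟨(e' - e - 3 * c - P) ^ 2 * (4 * (3 * c ^ 2 + a) - 9 * c ^ 2) +
      e * (27 * (c ^ 3 + a * c + b) + 108 * c ^ 3 - 54 * c * (3 * c ^ 2 + a)), ?_⟩
    unfold dsc
    linear_combination (27 * (c ^ 3 + a * c + b) + 108 * c ^ 3 - 54 * c * (3 * c ^ 2 + a)) * he +
      (4 * (3 * c ^ 2 + a) - 9 * c ^ 2) * ((3 * c ^ 2 + a) + P * (e' - e - 3 * c - P)) * h2
  exact hP.not_unit (hsq P h3)

theorem dn_lin (a b c : ℤ) :
    dn a b ![-c, 1, 0] = - (c ^ 3 + a * c + b) := by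
  simp only [dn, Matrix.cons_val_zero, Matrix.cons_val_one, Matrix.cons_val]
  ring

/-- primes of degree one -/
theorem cn_deg_one [Module.Finite ℤ O] [Module.IsTorsionFree ℤ O] (h : IsCub a b θ)
    (hsq : Squarefree (dsc a b)) {P : ℤ} (hP : Prime P) {𝔓 : HeightOneSpectrum O}
    (hov : Ov P 𝔓) {t : O} (ht : algebraMap O L t = θ) {c : ℤ}
    (hc : t - algebraMap ℤ O c ∈ 𝔓.asIdeal) :
    cn ℤ (Ideal.span {P}) 𝔓.asIdeal = 1 := by
  have hpp : (Ideal.span {P} : Ideal ℤ).IsPrime :=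
    (Ideal.span_singleton_prime hP.ne_zero).mpr hP
  have hpb : (Ideal.span {P} : Ideal ℤ) ≠ ⊥ := by
    rw [Ne, Ideal.span_singleton_eq_bot]
    exact hP.ne_zero
  obtain ⟨c', ⟨d, hd⟩, hc'⟩ := sqf_root hsq hP c
  refine cn_one hpp hpb 𝔓.isPrime ?_ (z := t - algebraMap ℤ O c') ?_ ?_
  · ext x
    rw [Ideal.mem_comap, ov_iff hP hov, Ideal.mem_span_singleton]
  · have : t - algebraMap ℤ O c' = (t - algebraMap ℤ O c) -
        algebraMap ℤ O d * algebraMap ℤ O P := by
      have hd' : c' = c + P * d := by linear_combination hd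
      rw [hd', map_add, map_mul]
      ring
    rw [this]
    exact 𝔓.asIdeal.sub_mem hc (𝔓.asIdeal.mul_mem_left _ hov)
  · have hcr : Crd θ ![-c', 1, 0] (algebraMap O L (t - algebraMap ℤ O c')) := by
      simp only [crd_iff]
      simp only [Matrix.cons_val_zero, Matrix.cons_val_one, Matrix.cons_val, map_sub, ht,
        map_neg, map_one, map_zero, ← IsScalarTower.algebraMap_apply ℤ O L]
      ring
    rw [intNorm_crd h hcr, dn_lin, Ideal.neg_mem_iff, Ideal.span_singleton_pow,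
      Ideal.mem_span_singleton]
    exact hc'

end par

/-- the primes over `Q` -/
theorem eq_J (hI : S_INT) {L O : Type} [Field L] [NumberField L] [CommRing O]
    [IsDedekindDomain O] [Algebra O L] [IsFractionRing O L] [IsIntegralClosure O ℤ L]
    {a b : ℤ} {θ : L}
    (h : IsCub a b θ)
    (hsq : Squarefree (dsc a b)) {Q : ℤ} (hQ : Prime Q) (hQb : Q ∣ b)
    (hns : ∀ z : ℤ, ¬ Q ∣ z ^ 2 + a) {t : O} (ht : algebraMap O L t = θ)
    (htr : t ^ 3 + algebraMap ℤ O a * t + algebraMap ℤ O b = 0)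
    {𝔓 : HeightOneSpectrum O} (hov : Ov Q 𝔓) :
    (t ∈ 𝔓.asIdeal ∧ 𝔓.asIdeal = J1 Q t) ∨ (t ∉ 𝔓.asIdeal ∧ 𝔓.asIdeal = J2 Q a t) := by
  have hm1 := J1_max hI h hsq hQ hQb ht
  have hm2 := J2_max hI h hsq hQ hQb hns ht
  by_cases hm : t ∈ 𝔓.asIdeal
  · left
    have hle : J1 Q t ≤ 𝔓.asIdeal := by
      rw [J1, Ideal.span_le]
      rintro x (rfl | rfl)
      · exact hov
      · exact hm
    exact ⟨hm, (hm1.eq_of_le 𝔓.isPrime.ne_top hle).symm⟩
  · right
    have hprod : t * (t ^ 2 + algebraMap ℤ O a) ∈ 𝔓.asIdeal := by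
      have : t * (t ^ 2 + algebraMap ℤ O a) = - algebraMap ℤ O b := by
        linear_combination htr
      rw [this]
      exact neg_mem ((ov_iff hQ hov b).mpr hQb)
    have hm' := (𝔓.isPrime.mem_or_mem hprod).resolve_left hm
    have hle : J2 Q a t ≤ 𝔓.asIdeal := by
      rw [J2, Ideal.span_le]
      rintro x (rfl | rfl)
      · exact hov
      · exact hm'
    exact ⟨hm, (hm2.eq_of_le 𝔓.isPrime.ne_top hle).symm⟩

end Pool.Agent.N667.PQ
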